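import Pool.Agent.QUD.StmtsXU

set_option autoImplicit false

namespace Pool.Agent.QUD.H85

open Real

theorem baz (h1 : BayStmt) (h2 : Xm1Stmt) (h3 : Xm2Stmt) : BazStmt := by
  classical
  intro L l g r A B H JP J hL hI ho hg hok hJP hJ hS
  have hK : ∀ p ∈ l, Kil p := by
    rcases hI with h | ⟨a, b, h, hab⟩ | ⟨a, b, c, h, hab, hac, -⟩
    · intro p hp
      rw [h] at hp
      simp at hp
    · intro p hp
      rw [h] at hp
      simp only [List.mem_singleton] at hp
      rw [hp]
      exact hab
    · intro p hp
      rw [h] at hp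
      simp only [List.mem_cons, List.not_mem_nil, or_false] at hp
      rcases hp with rfl | rfl
      · exact hab
      · exact hac
  obtain ⟨c1, c2⟩ := h1 L l g r A B H JP J hL hK ho hok hJP hJ hS
  refine ⟨c1, fun h0 => ?_⟩
  obtain ⟨hJ0, hg0, hr0, hA, hw, hc⟩ := c2 h0
  obtain ⟨m1, m2⟩ := h2 l A B H hK hok hw hc
  refine ⟨hJ0, hg0, hr0, ?_, ?_⟩
  · intro hl
    have hb := m1 (by
      intro p hp
      rw [hl] at hp
      simp at hp)
    refine ⟨?_, hb.1, hb.2⟩
    rcases hA with h | ⟨p, q, h, -⟩
    · exact h.2
    · rw [hl] at h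
      simp [oA] at h
  · intro hl
    by_cases hob : ∃ p ∈ l, obt p
    · obtain ⟨p, hp, hpo⟩ := hob
      have hmem : p ∈ oA l := by
        unfold oA
        rw [List.mem_filter]
        exact ⟨hp, by simpa using hpo⟩
      refine ⟨p, hp, ?_, fun h => absurd hpo h, fun h => absurd hpo h⟩
      intro _
      rcases hA with h | ⟨p', q, h, hq, hh⟩
      · rw [h.1] at hmem
        simp at hmem
      · rw [h] at hmem
        have hpp : p = p' := by simpa using hmem
        refine ⟨q, by rw [hq]; simp, ?_⟩
        rw [hpp]
        exact hh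
    · push Not at hob
      rcases hI with h | ⟨a, b, h, hab⟩ | ⟨a, b, c, h, hab, hac, -⟩
      · exact absurd h hl
      · refine ⟨(a, b), by rw [h]; simp, ?_⟩
        refine m2 (by rw [h]; simp) (a, b) (by rw [h]; simp) (hob _ (by rw [h]; simp)) A
      · have hn1 : ¬ obt (a, b) := hob _ (by rw [h]; simp)
        have hn2 : ¬ obt (a, c) := hob _ (by rw [h]; simp)
        have hor : π / 2 ≤ min a b ∨ π / 2 ≤ min a c := by
          by_contra hcon
          push Not at hcon
          rw [h] at hg
          have e1 : min a b < π / 2 := hcon.1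
          have e2 : min a c < π / 2 := hcon.2
          simp only [List.filter_cons, e1, e2, decide_true, if_true, List.filter_nil,
            List.length_cons, List.length_nil] at hg
          omega
        have hw' : ∀ α, wt α (a, b) + wt α (a, c) = wQ B H α := by
          intro α
          rw [← hw α, h]
          simp
        have hc' : ct (a, b) + ct (a, c) = cQ B H := by
          rw [← hc, h]
          simp
        rcases h3 a b c A B H hab hac hok hn1 hn2 hor hw' hc' with h4 | h4
        · exact ⟨(a, b), by rw [h]; simp, h4⟩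
        · exact ⟨(a, c), by rw [h]; simp, h4⟩

end Pool.Agent.QUD.H85
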