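import Pool.Agent.QUD.StmtsR

/-!
# Squad QUD, row TQM: four sides and one angle, up to the mirror image
-/

set_option autoImplicit false

namespace Pool.Agent.QUD.H85

open Pool.Agent.QUD Pool.Agent.H16Iso
open Pool.Agent.H1Gen (det CCW poly)

theorem tqm (h1 : CgrStmt) (h2 : RefStmt) (h3 : MotStmt) (h4 : TqcStmt) : TqmStmt := by
  intro v w hv hw ha he
  rcases he with he | ⟨e0, e1, e2, e3⟩
  · exact (h3 v w (h4 v w hv hw ha he)).2.2.1
  · obtain ⟨hm, hc, -, -, hd⟩ := h2 w 2 hw
    have ha' : an v 1 = an (mir 2 w) 1 := by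
      have h := (hd 1).2
      have e : (2 : Fin 4) - 1 = 1 := by decide
      rw [e] at h
      rw [h, ha]
    have he' : ∀ i, en v i = en (mir 2 w) i := by
      intro i
      have h := (hd i).1
      rw [h]
      fin_cases i
      · exact e0
      · exact e1
      · exact e2
      · exact e3
    have hcong := (h3 v (mir 2 w) (h4 v (mir 2 w) hv hm ha' he')).2.2.1
    exact h1.2.2 _ _ _ hcong (h1.2.1 _ _ hc)

end Pool.Agent.QUD.H85
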